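import Pool.Agent.H650R2.SqAsm
import Pool.Agent.H650R2.SqReg

set_option autoImplicit false

/-!
# The relation `λ² → (λ², n)²` for all finite `n`: graphs without cliques of size `n`
-/

namespace Pool.Agent.Y537.SQ

open Cardinal Ordinal Set Pool.Agent.H650R2.Sq

universe u

/-- a symmetric relation -/
structure Sy {X : Type u} (G : X → X → Prop) : Prop where
  symm : ∀ x y, G x y → G y x

/-- a graph without complete subgraphs with `n` vertices -/
structure NF (n : ℕ) {X : Type u} (G : X → X → Prop) : Prop where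
  symm : ∀ x y, G x y → G y x
  clique : ∀ φ : Fin n → X, ¬ ∀ i j, i < j → G (φ i) (φ j)

theorem NF.irrefl {n : ℕ} {X : Type u} {G : X → X → Prop} (h : NF n G) (x : X) : ¬ G x x :=
  fun hx => h.clique (fun _ => x) fun _ _ _ => hx

/-- the relation in terms of cardinalities -/
def RectN (n : ℕ) (lam : Cardinal.{u}) : Prop := ∀ W : Type u, #W = lam →
  ∀ G : W × W → W × W → Prop,
  NF n G → ∃ A : Set W, #A = lam ∧ ∃ Hs : W → Set W, (∀ a ∈ A, #(Hs a) = lam) ∧
    ∀ a ∈ A, ∀ b ∈ Hs a, ∀ a' ∈ A, ∀ b' ∈ Hs a', ¬ G (a, b) (a', b')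

/-- the relation in terms of unbounded sets -/
def RectON (n : ℕ) (I : Type u) [LinearOrder I] : Prop := ∀ G : I × I → I × I → Prop,
  NF n G → ∃ A : Set I, Unb A ∧ ∃ Hs : I → Set I, (∀ a ∈ A, Unb (Hs a)) ∧
    ∀ a ∈ A, ∀ b ∈ Hs a, ∀ a' ∈ A, ∀ b' ∈ Hs a', ¬ G (a, b) (a', b')

/-- Sorting a clique. -/
theorem nf_of_lt {n : ℕ} {X : Type u} [LinearOrder X] (R : X → X → Prop)
    (hlt : ∀ x y, R x y → x < y)
    (core : ∀ ψ : Fin n → X, StrictMono ψ → ¬ ∀ i j, i < j → R (ψ i) (ψ j)) :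
    NF n fun x y => R x y ∨ R y x := by
  classical
  refine ⟨fun p q h => h.symm, fun φ hφ => ?_⟩
  have hne : ∀ i j, i < j → φ i ≠ φ j := by
    intro i j hij he
    rcases hφ i j hij with h | h
    · exact (hlt _ _ h).ne he
    · exact (hlt _ _ h).ne he.symm
  have hinj : Function.Injective φ := by
    intro i j he
    rcases lt_trichotomy i j with h | h | h
    · exact absurd he (hne i j h)
    · exact h
    · exact absurd he.symm (hne j i h)
  have hcard : (Finset.univ.map ⟨φ, hinj⟩).card = n := by simp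
  let ψ := (Finset.univ.map ⟨φ, hinj⟩).orderEmbOfFin hcard
  have hψ : StrictMono ψ := OrderEmbedding.strictMono _
  have hmem : ∀ k, ∃ a, φ a = ψ k := by
    intro k
    have := Finset.orderEmbOfFin_mem _ hcard k
    rw [Finset.mem_map] at this
    obtain ⟨a, _, ha⟩ := this
    exact ⟨a, ha⟩
  refine core ψ hψ fun i j hij => ?_
  obtain ⟨a, ha⟩ := hmem i
  obtain ⟨b, hb⟩ := hmem j
  have h1 : ψ i < ψ j := hψ hij
  have hab : a ≠ b := by
    intro h
    rw [← ha, ← hb, h] at h1
    exact lt_irrefl _ h1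
  rw [← ha, ← hb] at h1 ⊢
  rcases lt_or_gt_of_ne hab with h | h
  · rcases hφ a b h with h2 | h2
    · exact h2
    · exact absurd (hlt _ _ h2) (not_lt.2 h1.le)
  · rcases hφ b a h with h2 | h2
    · exact absurd (hlt _ _ h2) (not_lt.2 h1.le)
    · exact h2

/-- a set which is the range of an increasing sequence has order type `n` -/
theorem type_fin {n : ℕ} {X : Type u} [LinearOrder X] [WellFoundedLT X] (ψ : Fin n → X)
    (hψ : StrictMono ψ) : typeLT (Set.range ψ) = n := by
  have h1 : StrictMono (fun i : ULift.{u} (Fin n) => ψ i.down) := fun i j hij => hψ hij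
  have h2 := type_range h1
  have h3 : Set.range (fun i : ULift.{u} (Fin n) => ψ i.down) = Set.range ψ := by
    ext x
    constructor
    · rintro ⟨i, rfl⟩; exact ⟨i.down, rfl⟩
    · rintro ⟨i, rfl⟩; exact ⟨ULift.up i, rfl⟩
  rw [h3] at h2
  rw [h2, type_fintype]
  simp

theorem exists_fin {n : ℕ} {X : Type u} [LinearOrder X] [WellFoundedLT X] {H : Set X}
    (hH : typeLT H = n) : ∃ ψ : Fin n → X, StrictMono ψ ∧ ∀ k, ψ k ∈ H := by
  have h1 : typeLT (ULift.{u} (Fin n)) = n := by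
    rw [type_fintype]
    simp
  obtain ⟨e⟩ := type_eq.1 (h1.trans hH.symm)
  exact ⟨fun k => (e ⟨k⟩).1, fun i j hij => e.map_rel_iff.2 (show i < j from hij),
    fun k => (e ⟨k⟩).2⟩

/-! ### From the cardinal form to the ordinal form -/

theorem arrow_of_rectN {n : ℕ} {lam : Cardinal.{u}} (h : RectN n lam) :
    Arrow (lam.ord * lam.ord) (lam.ord * lam.ord) n := by
  intro f
  let W : Type u := lam.ord.ToType
  have hWt : typeLT W = lam.ord := type_toType _
  have hWc : #W = lam := by simp [W]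
  obtain ⟨e⟩ : Nonempty (W ×ₗ W ≃o (lam.ord * lam.ord).ToType) := by
    have h1 : typeLT (W ×ₗ W) = typeLT (lam.ord * lam.ord).ToType := by
      rw [type_lex, hWt, type_toType]
    obtain ⟨e⟩ := type_eq.1 h1
    exact ⟨OrderIso.ofRelIsoLT e⟩
  let R : (lam.ord * lam.ord).ToType → (lam.ord * lam.ord).ToType → Prop :=
    fun x y => x < y ∧ f x y = true
  by_cases hT : ∃ ψ : Fin n → (lam.ord * lam.ord).ToType, StrictMono ψ ∧
      ∀ i j, i < j → R (ψ i) (ψ j)
  · right
    obtain ⟨ψ, hψ, h1⟩ := hT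
    refine ⟨Set.range ψ, type_fin ψ hψ, ?_⟩
    rintro _ ⟨i, rfl⟩ _ ⟨j, rfl⟩ hij
    exact (h1 i j (hψ.lt_iff_lt.1 hij)).2
  · left
    push Not at hT
    have hR : NF n fun x y => R x y ∨ R y x := by
      refine nf_of_lt R (fun x y h => h.1) fun ψ hψ hall => ?_
      obtain ⟨i, j, hij, h1⟩ := hT ψ hψ
      exact h1 (hall i j hij)
    have hG : NF n (fun p q : W × W => R (e (toLex p)) (e (toLex q)) ∨
        R (e (toLex q)) (e (toLex p))) :=
      ⟨fun p q h => h.symm, fun φ hφ => hR.clique (fun i => e (toLex (φ i))) hφ⟩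
    obtain ⟨A, hA, Hs, hHs, hind⟩ := h W hWc _ hG
    have hW : (#W).ord = typeLT W := ord_mk_toType lam
    obtain ⟨g, hg, hgA⟩ := exists_strictMono hW (hA.trans hWc.symm)
    have hch : ∀ x : W, ∃ k : W → W, StrictMono k ∧ ∀ y, k y ∈ Hs (g x) := fun x =>
      exists_strictMono hW ((hHs _ (hgA x)).trans hWc.symm)
    choose k hk hkH using hch
    let φ : W ×ₗ W → (lam.ord * lam.ord).ToType := fun p =>
      e (toLex (g (ofLex p).1, k (ofLex p).1 (ofLex p).2))
    have hφ : StrictMono φ := by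
      intro p q hpq
      refine e.strictMono ?_
      rw [Prod.Lex.lt_iff] at hpq ⊢
      rcases hpq with hpq | ⟨hpq, hpq'⟩
      · exact Or.inl (hg hpq)
      · right
        refine ⟨by simp [hpq], ?_⟩
        have : k (ofLex p).1 (ofLex p).2 < k (ofLex p).1 (ofLex q).2 := hk _ hpq'
        simpa [hpq] using this
    refine ⟨Set.range φ, ?_, ?_⟩
    · rw [type_range hφ, type_lex, hWt]
    · rintro _ ⟨p, rfl⟩ _ ⟨q, rfl⟩ hlt
      by_contra hne
      rw [Bool.not_eq_false] at hne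
      exact hind _ (hgA _) _ (hkH _ _) _ (hgA _) _ (hkH _ _) (Or.inl ⟨hlt, hne⟩)

/-- for a regular cardinal the two forms agree -/
theorem rectN_of_rectON {n : ℕ} {mu : Cardinal.{u}} (hmu : mu.IsRegular)
    (h : RectON n mu.ord.ToType) : RectN n mu := by
  intro W hW G hG
  obtain ⟨hI1, hI2, hI3, hI4⟩ := reg_facts hmu
  obtain ⟨e⟩ : Nonempty (mu.ord.ToType ≃ W) := Cardinal.eq.1 (by rw [hW]; simp)
  have hmuc : #(mu.ord.ToType) = mu := by simp
  obtain ⟨A, hA, Hs, hHs, hind⟩ := h (fun p q => G (e p.1, e p.2) (e q.1, e q.2))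
    ⟨fun p q hpq => hG.symm _ _ hpq, fun φ hφ => hG.clique (fun i => (e (φ i).1, e (φ i).2)) hφ⟩
  refine ⟨e '' A, ?_, fun w => e '' (Hs (e.symm w)), ?_, ?_⟩
  · rw [mk_image_eq e.injective, card_of_unb hI3 hA, hmuc]
  · rintro _ ⟨a, ha, rfl⟩
    show #(e '' (Hs (e.symm (e a)))) = mu
    rw [e.symm_apply_apply, mk_image_eq e.injective, card_of_unb hI3 (hHs a ha), hmuc]
  · rintro _ ⟨a, ha, rfl⟩ b hb _ ⟨a', ha', rfl⟩ b' hb' hGab
    change b ∈ e '' (Hs (e.symm (e a))) at hb
    change b' ∈ e '' (Hs (e.symm (e a'))) at hb'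
    rw [e.symm_apply_apply] at hb hb'
    obtain ⟨b, hb, rfl⟩ := hb
    obtain ⟨b', hb', rfl⟩ := hb'
    exact hind a ha b hb a' ha' b' hb' hGab

/-! ### Regular cardinals -/

section

variable {I : Type u} [LinearOrder I] [WellFoundedLT I]

/-- an increasing sequence in an unbounded set -/
theorem exists_seq [Nonempty I] {H : Set I} (hH : Unb H) :
    ∃ x : ℕ → I, StrictMono x ∧ ∀ k, x k ∈ H := by
  have h1 : ∀ b, ∃ x, x ∈ H ∧ b < x := fun b => by
    obtain ⟨x, hx, hb⟩ := hH b
    exact ⟨x, hx, hb⟩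
  choose s hs1 hs2 using h1
  let x : ℕ → I := fun k => Nat.rec (s (Classical.arbitrary I)) (fun _ y => s y) k
  refine ⟨x, strictMono_nat_of_lt_succ fun k => hs2 _, fun k => ?_⟩
  cases k with
  | zero => exact hs1 _
  | succ k => exact hs1 _

/-- If `μ → (μ)²₂` then the relation holds for the regular cardinal `μ`. -/
theorem rectON_of_pair (n : ℕ) (hW : (#I).ord = typeLT I) (hcof : Order.cof I = #I)
    (hinf : ℵ₀ ≤ #I)
    (hreg : ∀ S : Set I, #S < #I → ∃ b, ∀ x ∈ S, x < b)
    (hR : ∀ f : I → I → Bool, ∃ H : Set I, Unb H ∧ ∃ c, ∀ x ∈ H, ∀ y ∈ H, x < y → f x y = c) :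
    RectON n I := by
  classical
  intro G hG
  have hunivU : Unb (Set.univ : Set I) := by
    have := unb_of_card hW hinf (H := (Set.univ : Set I)) mk_univ
    exact this
  obtain ⟨H1, _, hH1, h1⟩ := ramsey_tuple hW hcof hinf hreg hR 4
    (fun φ => G (φ 0, φ 1) (φ 2, φ 3)) Set.univ hunivU
  obtain ⟨H2, hH21, hH2, h2⟩ := ramsey_tuple hW hcof hinf hreg hR 4
    (fun φ => G (φ 0, φ 2) (φ 1, φ 3)) H1 hH1
  obtain ⟨H3, hH32, hH3, h3⟩ := ramsey_tuple hW hcof hinf hreg hR 4
    (fun φ => G (φ 0, φ 3) (φ 1, φ 2)) H2 hH2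
  obtain ⟨H4, hH43, hH4, h4⟩ := ramsey_tuple hW hcof hinf hreg hR 3
    (fun φ => G (φ 0, φ 1) (φ 0, φ 2)) H3 hH3
  have hne : Nonempty I := by
    rw [← mk_ne_zero_iff]
    exact (aleph0_pos.trans_le hinf).ne'
  obtain ⟨x, hx, hxH⟩ := exists_seq hH4
  have hH42 : H4 ⊆ H2 := hH43.trans hH32
  have hH41 : H4 ⊆ H1 := hH42.trans hH21
  have k1 : ∀ a b c d, a ∈ H4 → b ∈ H4 → c ∈ H4 → d ∈ H4 → a < b → b < c → c < d →
      ¬ G (a, b) (c, d) := by
    rcases h1 with h1 | h1
    · exfalso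
      refine hG.clique (fun i => (x (2 * i.1), x (2 * i.1 + 1))) fun i j hij => ?_
      have hij' : i.1 < j.1 := hij
      exact h1 _ (strictMono_four (hx (by omega)) (hx (by omega)) (hx (by omega)))
        (mem_four (hH41 (hxH _)) (hH41 (hxH _)) (hH41 (hxH _)) (hH41 (hxH _)))
    · intro a b c d ha hb hc hd hab hbc hcd
      exact h1 _ (strictMono_four hab hbc hcd)
        (mem_four (hH41 ha) (hH41 hb) (hH41 hc) (hH41 hd))
  have k2 : ∀ a b c d, a ∈ H4 → b ∈ H4 → c ∈ H4 → d ∈ H4 → a < b → b < c → c < d →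
      ¬ G (a, c) (b, d) := by
    rcases h2 with h2 | h2
    · exfalso
      refine hG.clique (fun i => (x i.1, x (n + i.1))) fun i j hij => ?_
      have hij' : i.1 < j.1 := hij
      have hj := j.2
      exact h2 _ (strictMono_four (hx hij') (hx (by omega)) (hx (by omega)))
        (mem_four (hH42 (hxH _)) (hH42 (hxH _)) (hH42 (hxH _)) (hH42 (hxH _)))
    · intro a b c d ha hb hc hd hab hbc hcd
      exact h2 _ (strictMono_four hab hbc hcd)
        (mem_four (hH42 ha) (hH42 hb) (hH42 hc) (hH42 hd))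
  have k3 : ∀ a b c d, a ∈ H4 → b ∈ H4 → c ∈ H4 → d ∈ H4 → a < b → b < c → c < d →
      ¬ G (a, d) (b, c) := by
    rcases h3 with h3 | h3
    · exfalso
      refine hG.clique (fun i => (x i.1, x (2 * n - i.1))) fun i j hij => ?_
      have hij' : i.1 < j.1 := hij
      have hj := j.2
      exact h3 _ (strictMono_four (hx hij') (hx (show j.1 < 2 * n - j.1 by omega))
        (hx (by omega)))
        (mem_four (hH43 (hxH _)) (hH43 (hxH _)) (hH43 (hxH _)) (hH43 (hxH _)))
    · intro a b c d ha hb hc hd hab hbc hcd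
      exact h3 _ (strictMono_four hab hbc hcd)
        (mem_four (hH43 ha) (hH43 hb) (hH43 hc) (hH43 hd))
  have k4 : ∀ a b c, a ∈ H4 → b ∈ H4 → c ∈ H4 → a < b → b < c → ¬ G (a, b) (a, c) := by
    rcases h4 with h4 | h4
    · exfalso
      refine hG.clique (fun i => (x 0, x (i.1 + 1))) fun i j hij => ?_
      have hij' : i.1 < j.1 := hij
      exact h4 _ (strictMono_three (hx (by omega)) (hx (by omega)))
        (mem_three (hxH _) (hxH _) (hxH _))
    · intro a b c ha hb hc hab hbc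
      exact h4 _ (strictMono_three hab hbc) (mem_three ha hb hc)
  -- the partition of the homogeneous set
  obtain ⟨en, hen, henH⟩ := exists_strictMono hW (card_of_unb hcof hH4)
  obtain ⟨pr⟩ : Nonempty (Option I × I ↪ I) := by
    rw [← Cardinal.le_def, mk_prod, Cardinal.lift_id, Cardinal.lift_id, mk_option,
      add_one_eq hinf]
    exact (mul_eq_self hinf).le
  have hrow : ∀ t : Option I, Unb (Set.range fun y => en (pr (t, y))) := by
    intro t b
    have h1 : #(Set.range fun y => pr (t, y)) = #I :=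
      mk_range_eq _ fun y y' h => (Prod.ext_iff.1 (pr.injective h)).2
    obtain ⟨x, ⟨y, rfl⟩, hx⟩ := unb_of_card hW hinf h1 b
    exact ⟨_, ⟨y, rfl⟩, hx.trans_le (hen.id_le _)⟩
  have hinj : ∀ p q, en (pr p) = en (pr q) → p = q := fun p q h => pr.injective (hen.injective h)
  refine ⟨Set.range fun y => en (pr (none, y)), hrow none,
    fun a => {b | a < b ∧ ∃ y z, a = en (pr (none, y)) ∧ b = en (pr (some y, z))}, ?_, ?_⟩
  · rintro _ ⟨y, rfl⟩ b
    obtain ⟨_, ⟨z, rfl⟩, hz⟩ := hrow (some y) (max b (en (pr (none, y))))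
    exact ⟨_, ⟨(le_max_right _ _).trans_lt hz, y, z, rfl, rfl⟩, (le_max_left _ _).trans_lt hz⟩
  · -- a symmetric case distinction
    have hmain : ∀ y z y' z', en (pr (none, y)) < en (pr (some y, z)) →
        en (pr (none, y')) < en (pr (some y', z')) → en (pr (none, y)) < en (pr (none, y')) →
        ¬ G (en (pr (none, y)), en (pr (some y, z))) (en (pr (none, y')), en (pr (some y', z'))) := by
      intro y z y' z' h1 h2 h3
      have hne1 : en (pr (some y, z)) ≠ en (pr (none, y')) := fun h => by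
        have := (Prod.ext_iff.1 (hinj _ _ h)).1
        simp at this
      have hyy' : y ≠ y' := fun h => by
        subst h
        exact lt_irrefl _ h3
      have hne2 : en (pr (some y, z)) ≠ en (pr (some y', z')) := fun h => by
        have := (Prod.ext_iff.1 (hinj _ _ h)).1
        exact hyy' (Option.some_injective _ this)
      rcases lt_or_gt_of_ne hne1 with h4 | h4
      · exact k1 _ _ _ _ (henH _) (henH _) (henH _) (henH _) h1 h4 h2
      · rcases lt_or_gt_of_ne hne2 with h5 | h5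
        · exact k2 _ _ _ _ (henH _) (henH _) (henH _) (henH _) h3 h4 h5
        · exact k3 _ _ _ _ (henH _) (henH _) (henH _) (henH _) h3 h2 h5
    rintro a _ b ⟨hab, y, z, rfl, rfl⟩ a' _ b' ⟨hab', y', z', rfl, rfl⟩ hGab
    rcases lt_trichotomy (en (pr (none, y))) (en (pr (none, y'))) with h1 | h1 | h1
    · exact hmain y z y' z' hab hab' h1 hGab
    · have hyy' : y = y' := (Prod.ext_iff.1 (hinj _ _ h1)).2
      subst hyy'
      rcases lt_trichotomy (en (pr (some y, z))) (en (pr (some y, z'))) with h2 | h2 | h2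
      · exact k4 _ _ _ (henH _) (henH _) (henH _) hab h2 hGab
      · rw [h2] at hGab
        exact hG.irrefl _ hGab
      · exact k4 _ _ _ (henH _) (henH _) (henH _) hab' h2 (hG.symm _ _ hGab)
    · exact hmain y' z' y z hab' hab h1 (hG.symm _ _ hGab)

end

end Pool.Agent.Y537.SQ
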