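import Pool.Agent.H650R2.SqCanon
import Pool.Agent.Y537.SQ.Asm

set_option autoImplicit false

/-!
# Singular strong limit cardinals: canonical systems of blocks, for symmetric relations
-/

namespace Pool.Agent.Y537.SQ

open Cardinal Ordinal Set Pool.Agent.H650R2.Sq

universe u

theorem canonS {lam : Cardinal.{u}} (hinf : ℵ₀ ≤ lam) (hsing : lam.ord.cof < lam)
    (hlim : ∀ c < lam, (2 : Cardinal.{u}) ^ c < lam)
    {W : Type u} [LinearOrder W] [WellFoundedLT W] (hW : #W = lam) {G : W × W → W × W → Prop}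
    (hG : Sy G) :
    ∃ (ρ : lam.ord.cof.ord.ToType → lam.ord.cof.ord.ToType)
      (A K : lam.ord.cof.ord.ToType → Set W) (s : lam.ord.cof.ord.ToType → Cardinal.{u}),
      (∀ i, #{j | ρ j = i} = lam.ord.cof) ∧ (∀ i, (A i).Infinite) ∧ (∀ j, (K j).Infinite) ∧
      (∀ j, ∀ α ∈ A (ρ j), ∀ α' ∈ A (ρ j), ∀ β ∈ A (ρ j), ∀ β' ∈ A (ρ j),
        ∀ ξ ∈ K j, ∀ ξ' ∈ K j, ∀ η ∈ K j, ∀ η' ∈ K j, cmp α α' = cmp β β' →
        cmp ξ ξ' = cmp η η' → G (α, ξ) (α', ξ') → G (β, η) (β', η')) ∧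
      (∀ j j', j ≠ j' → ρ j = ρ j' → ∀ α ∈ A (ρ j), ∀ α' ∈ A (ρ j), ∀ β ∈ A (ρ j),
        ∀ β' ∈ A (ρ j), cmp α α' = cmp β β' → ∀ ξ ∈ K j, ∀ η ∈ K j, ∀ ξ' ∈ K j', ∀ η' ∈ K j',
        G (α, ξ) (α', ξ') → G (β, η) (β', η')) ∧
      (∀ j j', ρ j ≠ ρ j' → ∀ α ∈ A (ρ j), ∀ β ∈ A (ρ j), ∀ α' ∈ A (ρ j'), ∀ β' ∈ A (ρ j'),
        ∀ ξ ∈ K j, ∀ η ∈ K j, ∀ ξ' ∈ K j', ∀ η' ∈ K j', G (α, ξ) (α', ξ') → G (β, η) (β', η')) ∧
      (∀ c < lam, ∃ j, c ≤ s j) ∧ (∀ j j', j < j' → s j < s j') ∧ (∀ i, s i ≤ #(A i)) ∧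
      (∀ j, s j ≤ #(K j)) := by
  classical
  obtain ⟨s, a, b, hs1, ha, hb, hblt, hsum, hscof⟩ := exists_sizes hinf hsing hlim
  let I : Type u := lam.ord.cof.ord.ToType
  have hreg : lam.ord.cof.IsRegular := isRegular_cof (isSuccLimit_ord hinf)
  have hIc : #I = lam.ord.cof := by simp [I]
  obtain ⟨hI1, hI2, hI3, hI4⟩ := reg_facts hreg
  -- the sizes
  have hsinf : ∀ j, ℵ₀ ≤ s j := fun j => hreg.aleph0_le.trans (hs1 j)
  have hsa : ∀ j, s j < a j := fun j => by rw [ha]; exact lt_P2 _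
  have hab : ∀ j, a j < b j := fun j => by rw [hb]; exact lt_P2 _
  have hainf : ∀ j, ℵ₀ ≤ a j := fun j => (hsinf j).trans (hsa j).le
  have hbs : ∀ j' j, j' < j → b j' ≤ s j := fun j' j h =>
    (Cardinal.le_sum (fun j' : Iio j => b j'.1) ⟨j', h⟩).trans (hsum j)
  have hamono : ∀ i j, i ≤ j → a i ≤ a j := by
    intro i j hij
    rcases hij.lt_or_eq with h | h
    · exact (hab i).le.trans ((hbs i j h).trans (hsa j).le)
    · rw [h]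
  have hIs : ∀ j, #I ≤ s j := fun j => hIc.le.trans (hs1 j)
  have hIa : ∀ j, #I ≤ a j := fun j => (hIs j).trans (hsa j).le
  have hIio : ∀ j : I, #(Iio j) ≤ s j := fun j => (mk_set_le _).trans (hIs j)
  have hIic : ∀ j : I, #(Iic j) ≤ a j := fun j => (mk_set_le _).trans (hIa j)
  -- the blocks
  have hA0 : ∀ i, ∃ A : Set W, #A = a i := fun i =>
    le_mk_iff_exists_set.1 ((((hab i).trans (hblt i)).le).trans hW.ge)
  have hK0 : ∀ j, ∃ K : Set W, #K = b j := fun j =>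
    le_mk_iff_exists_set.1 ((hblt j).le.trans hW.ge)
  choose A0 hA0 using hA0
  choose K0 hK0 using hK0
  -- the row block of a level
  obtain ⟨p⟩ : Nonempty (I ≃ I × I) := Cardinal.eq.1 (by
    rw [mk_prod, Cardinal.lift_id]
    exact (mul_eq_self hI1).symm)
  let ρ : I → I := fun j => min (p j).1 j
  have hρle : ∀ j, ρ j ≤ j := fun j => min_le_right _ _
  have hρ : ∀ i, #{j | ρ j = i} = lam.ord.cof := by
    intro i
    have h1 : #{j | (p j).1 = i} = #I := by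
      refine le_antisymm (mk_set_le _) (mk_le_of_injective (f := fun k : I =>
        (⟨p.symm (i, k), by simp⟩ : {j | (p j).1 = i})) fun k k' h => ?_)
      have := p.symm.injective (congrArg Subtype.val h)
      exact (Prod.ext_iff.1 this).2
    have h2 : Unb {j | ρ j = i} := by
      intro c
      obtain ⟨j, hj, hcj⟩ := unb_of_card hI2 hI1 h1 (max c i)
      refine ⟨j, ?_, (le_max_left _ _).trans_lt hcj⟩
      show min (p j).1 j = i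
      rw [show (p j).1 = i from hj]
      exact min_eq_left ((le_max_right c i).trans hcj.le)
    exact (card_of_unb hI3 h2).trans hIc
  -- the lower points
  let V : I → Set (W × W) := fun j => ⋃ j0 : Iio j, A0 (ρ j0.1) ×ˢ K0 j0.1
  have hV : ∀ j, #(V j) ≤ s j := by
    intro j
    refine (mk_iUnion_le_sum_mk).trans ((Cardinal.sum_le_sum _ (fun j0 : Iio j => b j0.1)
      fun j0 => ?_).trans (hsum j))
    rw [Cardinal.mk_setProd, hA0, hK0]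
    have h1 : a (ρ j0.1) ≤ b j0.1 := (hamono _ _ (hρle _)).trans (hab _).le
    exact (mul_le_mul' h1 le_rfl).trans (mul_eq_self ((hainf _).trans (hab _).le)).le
  have hVmem : ∀ j0 j, j0 < j → ∀ α ∈ A0 (ρ j0), ∀ ξ ∈ K0 j0, (α, ξ) ∈ V j :=
    fun j0 j h α hα ξ hξ => mem_iUnion.2 ⟨⟨j0, h⟩, hα, hξ⟩
  have hA0a : ∀ j, #(A0 (ρ j)) ≤ a j := fun j => (hA0 _).le.trans (hamono _ _ (hρle j))
  -- step 1
  have st1 : ∀ j, ∃ K1 ⊆ K0 j, #K1 = Order.succ ((2 : Cardinal.{u}) ^ a j) ∧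
      (∀ v ∈ V j, ∀ α ∈ A0 (ρ j), ∀ x ∈ K1, ∀ x' ∈ K1, G v (α, x) ↔ G v (α, x')) ∧
      (∀ α ∈ A0 (ρ j), ∀ α' ∈ A0 (ρ j), ∀ x ∈ K1, ∀ x' ∈ K1,
        G (α, x) (α', x) ↔ G (α, x') (α', x')) ∧
      ∀ α ∈ A0 (ρ j), ∀ α' ∈ A0 (ρ j), ∀ x ∈ K1, ∀ y ∈ K1, ∀ x' ∈ K1, ∀ y' ∈ K1, x < y →
        x' < y' → (G (α, x) (α', y) ↔ G (α, x') (α', y')) := by
    intro j
    obtain ⟨Z, hZ, hZc, hd, hc⟩ := er_pattern (hainf j) (K0 j) ((hK0 j).trans (hb j))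
      (Q := (V j × A0 (ρ j)) ⊕ (A0 (ρ j) × A0 (ρ j)))
      (mk_sum_le (hainf j) (mk_prod_le (hainf j) ((hV j).trans (hsa j).le) (hA0a j))
        (mk_prod_le (hainf j) (hA0a j) (hA0a j)))
      (fun x y q => match q with
        | Sum.inl q => G q.1.1 (q.2.1, x)
        | Sum.inr q => G (q.1.1, x) (q.2.1, y))
    refine ⟨Z, hZ, hZc, fun v hv α hα x hx x' hx' => ?_, fun α hα α' hα' x hx x' hx' => ?_,
      fun α hα α' hα' x hx y hy x' hx' y' hy' h h' => ?_⟩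
    · exact hd x hx x' hx' (Sum.inl (⟨v, hv⟩, ⟨α, hα⟩))
    · exact hd x hx x' hx' (Sum.inr (⟨α, hα⟩, ⟨α', hα'⟩))
    · exact hc x hx y hy x' hx' y' hy' h h' (Sum.inr (⟨α, hα⟩, ⟨α', hα'⟩))
  choose K1 hK10 hK1c h1a h1c h1b using st1
  have h2a : ∀ j, a j ≤ (2 : Cardinal.{u}) ^ a j := fun j => (cantor _).le
  have hK1inf : ∀ j, (K1 j).Infinite := fun j => infinite_of_le (hainf j)
    (((h2a j).trans (Order.le_succ _)).trans (hK1c j).ge)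
  choose x hx using fun j => (hK1inf j).nonempty
  -- step 2
  have st2 : ∀ i, ∃ A1 ⊆ A0 i, #A1 = a i ∧
      ∀ α ∈ A1, ∀ α' ∈ A1, ∀ v ∈ V i, ∀ j, G v (α, x j) ↔ G v (α', x j) := by
    intro i
    obtain ⟨Z, hZ, hZc, h⟩ := pig_pattern (κ := a i) (by rw [ha]; exact isRegular_P2 (hsinf i))
      (A0 i) (hA0 i) (Q := V i × I) (by
        rw [ha]
        exact (Cardinal.power_le_power_left two_ne_zero
          (mk_prod_le (hsinf i) (hV i) (hIs i))).trans_lt ((cantor _).trans (Order.lt_succ _)))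
      (fun α q => G q.1.1 (α, x q.2))
    exact ⟨Z, hZ, hZc, fun α hα α' hα' v hv j => h α hα α' hα' (⟨v, hv⟩, j)⟩
  choose A1 hA10 hA1c h2 using st2
  have hA1inf : ∀ i, (A1 i).Infinite := fun i => infinite_of_le (hainf i) (hA1c i).ge
  choose t ht using fun i => (hA1inf i).nonempty
  -- step 3
  let U : I → Set W := fun j => ⋃ i : Iic j, A0 i.1
  have hU : ∀ j, #(U j) ≤ a j := by
    intro j
    refine (mk_iUnion_le_sum_mk).trans ((Cardinal.sum_le_sum _ (fun _ : Iic j => a j)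
      fun i => (hA0 _).le.trans (hamono _ _ i.2)).trans ?_)
    rw [Cardinal.sum_const']
    exact (mul_le_mul' (hIic j) le_rfl).trans (mul_eq_self (hainf j)).le
  have hUmem : ∀ i j, i ≤ j → ∀ α ∈ A0 i, α ∈ U j := fun i j h α hα => mem_iUnion.2 ⟨⟨i, h⟩, hα⟩
  have st3 : ∀ j, ∃ K2 ⊆ K1 j, #K2 = Order.succ ((2 : Cardinal.{u}) ^ a j) ∧
      ∀ ξ ∈ K2, ∀ ξ' ∈ K2, (∀ α ∈ U j, ∀ α' ∈ U j, ∀ j', G (α, ξ) (α', x j') ↔
        G (α, ξ') (α', x j')) ∧ ∀ α ∈ U j, ∀ j', G (α, ξ) (t (ρ j'), x j') ↔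
        G (α, ξ') (t (ρ j'), x j') := by
    intro j
    obtain ⟨Z, hZ, hZc, h⟩ := pig_pattern (isRegular_succ ((hainf j).trans (h2a j)))
      (K1 j) (hK1c j) (Q := (U j × U j × I) ⊕ (U j × I)) (by
        refine (Cardinal.power_le_power_left two_ne_zero ?_).trans_lt (Order.lt_succ _)
        exact mk_sum_le (hainf j) (mk_prod_le (hainf j) (hU j) (mk_prod_le (hainf j) (hU j)
          (hIa j))) (mk_prod_le (hainf j) (hU j) (hIa j)))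
      (fun ξ q => match q with
        | Sum.inl q => G (q.1.1, ξ) (q.2.1.1, x q.2.2)
        | Sum.inr q => G (q.1.1, ξ) (t (ρ q.2), x q.2))
    exact ⟨Z, hZ, hZc, fun ξ hξ ξ' hξ' => ⟨fun α hα α' hα' j' =>
      h ξ hξ ξ' hξ' (Sum.inl (⟨α, hα⟩, ⟨α', hα'⟩, j')), fun α hα j' =>
      h ξ hξ ξ' hξ' (Sum.inr (⟨α, hα⟩, j'))⟩⟩
  choose K2 hK21 hK2c h3 using st3
  have hK2inf : ∀ j, (K2 j).Infinite := fun j => infinite_of_le (hainf j)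
    (((h2a j).trans (Order.le_succ _)).trans (hK2c j).ge)
  -- the columns are homogeneous
  have h4 : ∀ j j', j < j' → ∀ α ∈ A1 (ρ j), ∀ α' ∈ A1 (ρ j'), ∀ ξ ∈ K2 j, ∀ ζ ∈ K2 j,
      ∀ ξ' ∈ K2 j', ∀ ζ' ∈ K2 j', G (α, ξ) (α', ξ') → G (α, ζ) (α', ζ') := by
    intro j j' hjj' α hα α' hα' ξ hξ ζ hζ ξ' hξ' ζ' hζ' h
    have hα0 := hA10 _ hα
    have hα0' := hA10 _ hα'
    have hξ0 := hK10 _ (hK21 _ hξ)
    have hζ0 := hK10 _ (hK21 _ hζ)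
    have e1 := (h1a j' _ (hVmem j j' hjj' α hα0 ξ hξ0) α' hα0' ξ' (hK21 _ hξ') (x j')
      (hx j')).1 h
    refine (h1a j' _ (hVmem j j' hjj' α hα0 ζ hζ0) α' hα0' ζ' (hK21 _ hζ') (x j') (hx j')).2 ?_
    rcases le_or_gt (ρ j') j with hle | hgt
    · exact ((h3 j ξ hξ ζ hζ).1 α (hUmem _ _ (hρle j) α hα0) α' (hUmem _ _ hle α' hα0') j').1 e1
    · have e2 := (h2 (ρ j') α' hα' (t (ρ j')) (ht _) _ (hVmem j (ρ j') hgt α hα0 ξ hξ0) j').1 e1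
      have e3 := ((h3 j ξ hξ ζ hζ).2 α (hUmem _ _ (hρle j) α hα0) j').1 e2
      exact (h2 (ρ j') α' hα' (t (ρ j')) (ht _) _ (hVmem j (ρ j') hgt α hα0 ζ hζ0) j').2 e3
  have h4' : ∀ j j', j ≠ j' → ∀ α ∈ A1 (ρ j), ∀ α' ∈ A1 (ρ j'), ∀ ξ ∈ K2 j, ∀ ζ ∈ K2 j,
      ∀ ξ' ∈ K2 j', ∀ ζ' ∈ K2 j', G (α, ξ) (α', ξ') → G (α, ζ) (α', ζ') := by
    intro j j' hne α hα α' hα' ξ hξ ζ hζ ξ' hξ' ζ' hζ' h
    rcases lt_or_gt_of_ne hne with hlt | hgt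
    · exact h4 j j' hlt α hα α' hα' ξ hξ ζ hζ ξ' hξ' ζ' hζ' h
    · exact hG.symm _ _ (h4 j' j hgt α' hα' α hα ξ' hξ' ζ' hζ' ξ hξ ζ hζ (hG.symm _ _ h))
  -- two elements of each column block
  have hy : ∀ j, ∃ y0 ∈ K2 j, ∃ y1 ∈ K2 j, y0 < y1 := by
    intro j
    obtain ⟨y0, h0, y1, h1, _, _, h01, _, _⟩ := exists_three_cmp (hK2inf j) .lt
    exact ⟨y0, h0, y1, h1, (cmp_eq_lt_iff _ _).1 h01⟩
  choose y0 hy0 y1 hy1 hy01 using hy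
  let yy : I ⊕ I → W := fun q => match q with
    | Sum.inl j => y0 j
    | Sum.inr j => y1 j
  -- step 4
  let B : I → Set W := fun i => ⋃ i' : Iio i, A0 i'.1
  have hB : ∀ i, #(B i) ≤ s i := by
    intro i
    refine (mk_iUnion_le_sum_mk).trans ((Cardinal.sum_le_sum _ (fun i' : Iio i => b i'.1)
      fun i' => ?_).trans (hsum i))
    rw [hA0]
    exact (hab _).le
  have hBmem : ∀ i' i, i' < i → ∀ α ∈ A0 i', α ∈ B i := fun i' i h α hα =>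
    mem_iUnion.2 ⟨⟨i', h⟩, hα⟩
  have st4 : ∀ i, ∃ A2 ⊆ A1 i, #A2 = Order.succ ((2 : Cardinal.{u}) ^ s i) ∧
      (∀ α ∈ A2, ∀ α' ∈ A2, ∀ u v, G (α, yy u) (α, yy v) ↔ G (α', yy u) (α', yy v)) ∧
      (∀ α ∈ A2, ∀ α' ∈ A2, ∀ β ∈ B i, ∀ u v, G (α, yy u) (β, yy v) ↔ G (α', yy u) (β, yy v)) ∧
      ∀ α ∈ A2, ∀ α' ∈ A2, ∀ β ∈ A2, ∀ β' ∈ A2, α < α' → β < β' → ∀ u v,
        G (α, yy u) (α', yy v) ↔ G (β, yy u) (β', yy v) := by
    intro i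
    have hII : #(I ⊕ I) ≤ s i := mk_sum_le (hsinf i) (hIs i) (hIs i)
    obtain ⟨Z, hZ, hZc, hd, hc⟩ := er_pattern (hsinf i) (A1 i) ((hA1c i).trans (ha i))
      (Q := ((I ⊕ I) × (I ⊕ I)) ⊕ ((I ⊕ I) × B i × (I ⊕ I)))
      (mk_sum_le (hsinf i) (mk_prod_le (hsinf i) hII hII)
        (mk_prod_le (hsinf i) hII (mk_prod_le (hsinf i) (hB i) hII)))
      (fun α α' q => match q with
        | Sum.inl q => G (α, yy q.1) (α', yy q.2)
        | Sum.inr q => G (α, yy q.1) (q.2.1.1, yy q.2.2))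
    refine ⟨Z, hZ, hZc, fun α hα α' hα' u v => ?_, fun α hα α' hα' β hβ u v => ?_,
      fun α hα α' hα' β hβ β' hβ' h h' u v => ?_⟩
    · exact hd α hα α' hα' (Sum.inl (u, v))
    · exact hd α hα α' hα' (Sum.inr (u, ⟨β, hβ⟩, v))
    · exact hc α hα α' hα' β hβ β' hβ' h h' (Sum.inl (u, v))
  choose A2 hA21 hA2c h5d h6 h5 using st4
  have h2s : ∀ i, s i ≤ (2 : Cardinal.{u}) ^ s i := fun i => (cantor _).le
  have hA2inf : ∀ i, (A2 i).Infinite := fun i => infinite_of_le (hsinf i)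
    (((h2s i).trans (Order.le_succ _)).trans (hA2c i).ge)
  choose t' ht' using fun i => (hA2inf i).nonempty
  -- step 5
  have st5 : ∀ i, ∃ A3 ⊆ A2 i, #A3 = Order.succ ((2 : Cardinal.{u}) ^ s i) ∧
      ∀ α ∈ A3, ∀ α' ∈ A3, ∀ j j', G (α, y0 j) (t' (ρ j'), y0 j') ↔
        G (α', y0 j) (t' (ρ j'), y0 j') := by
    intro i
    obtain ⟨Z, hZ, hZc, h⟩ := pig_pattern (isRegular_succ ((hsinf i).trans (h2s i)))
      (A2 i) (hA2c i) (Q := I × I) (by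
        refine (Cardinal.power_le_power_left two_ne_zero ?_).trans_lt (Order.lt_succ _)
        exact mk_prod_le (hsinf i) (hIs i) (hIs i))
      (fun α q => G (α, y0 q.1) (t' (ρ q.2), y0 q.2))
    exact ⟨Z, hZ, hZc, fun α hα α' hα' j j' => h α hα α' hα' (j, j')⟩
  choose A3 hA32 hA3c h7 using st5
  have hA31 : ∀ i, A3 i ⊆ A1 i := fun i => (hA32 i).trans (hA21 i)
  have hA30 : ∀ i, A3 i ⊆ A0 i := fun i => (hA31 i).trans (hA10 i)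
  have hA3inf : ∀ i, (A3 i).Infinite := fun i => infinite_of_le (hsinf i)
    (((h2s i).trans (Order.le_succ _)).trans (hA3c i).ge)
  -- rows in the same block
  have hrow : ∀ i, ∀ α ∈ A2 i, ∀ α' ∈ A2 i, ∀ β ∈ A2 i, ∀ β' ∈ A2 i, cmp α α' = cmp β β' →
      ∀ u v, G (α, yy u) (α', yy v) → G (β, yy u) (β', yy v) := by
    intro i α hα α' hα' β hβ β' hβ' hc u v h
    rcases lt_trichotomy α α' with h1 | h1 | h1
    · rw [(cmp_eq_lt_iff _ _).2 h1, eq_comm, cmp_eq_lt_iff] at hc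
      exact (h5 i α hα α' hα' β hβ β' hβ' h1 hc u v).1 h
    · subst h1
      rw [cmp_self_eq_eq, eq_comm, cmp_eq_eq_iff] at hc
      subst hc
      exact (h5d i α hα β hβ u v).1 h
    · rw [(cmp_eq_gt_iff _ _).2 h1, eq_comm, cmp_eq_gt_iff] at hc
      exact hG.symm _ _ ((h5 i α' hα' α hα β' hβ' β hβ h1 hc v u).1 (hG.symm _ _ h))
  -- columns in the same level
  have hcol : ∀ j, ∀ α ∈ A0 (ρ j), ∀ α' ∈ A0 (ρ j), ∀ ξ ∈ K1 j, ∀ ξ' ∈ K1 j, ∀ η ∈ K1 j,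
      ∀ η' ∈ K1 j, cmp ξ ξ' = cmp η η' → G (α, ξ) (α', ξ') → G (α, η) (α', η') := by
    intro j α hα α' hα' ξ hξ ξ' hξ' η hη η' hη' hc h
    rcases lt_trichotomy ξ ξ' with h1 | h1 | h1
    · rw [(cmp_eq_lt_iff _ _).2 h1, eq_comm, cmp_eq_lt_iff] at hc
      exact (h1b j α hα α' hα' ξ hξ ξ' hξ' η hη η' hη' h1 hc).1 h
    · subst h1
      rw [cmp_self_eq_eq, eq_comm, cmp_eq_eq_iff] at hc
      subst hc
      exact (h1c j α hα α' hα' ξ hξ η hη).1 h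
    · rw [(cmp_eq_gt_iff _ _).2 h1, eq_comm, cmp_eq_gt_iff] at hc
      exact hG.symm _ _ ((h1b j α' hα' α hα ξ' hξ' ξ hξ η' hη' η hη h1 hc).1 (hG.symm _ _ h))
  -- different row blocks
  have h8 : ∀ j j', ρ j < ρ j' → ∀ α ∈ A3 (ρ j), ∀ β ∈ A3 (ρ j), ∀ α' ∈ A3 (ρ j'),
      ∀ β' ∈ A3 (ρ j'), G (α, y0 j) (α', y0 j') → G (β, y0 j) (β', y0 j') := by
    intro j j' hlt α hα β hβ α' hα' β' hβ' h
    have e1 := (h6 (ρ j') α' (hA32 _ hα') (t' (ρ j')) (ht' _) α (hBmem _ _ hlt α (hA30 _ hα))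
      (Sum.inl j') (Sum.inl j)).1 (hG.symm _ _ h)
    have e2 := (h7 (ρ j) α hα β hβ j j').1 (hG.symm _ _ e1)
    exact hG.symm _ _ ((h6 (ρ j') β' (hA32 _ hβ') (t' (ρ j')) (ht' _) β
      (hBmem _ _ hlt β (hA30 _ hβ)) (Sum.inl j') (Sum.inl j)).2 (hG.symm _ _ e2))
  refine ⟨ρ, A3, K2, s, hρ, hA3inf, hK2inf, ?_, ?_, ?_, hscof, ?_, ?_, ?_⟩
  · intro j α hα α' hα' β hβ β' hβ' ξ hξ ξ' hξ' η hη η' hη' hc hc' h
    obtain ⟨u, v, hu, hv, huv⟩ : ∃ u v : I ⊕ I, yy u ∈ K2 j ∧ yy v ∈ K2 j ∧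
        cmp (yy u) (yy v) = cmp ξ ξ' := by
      rcases lt_trichotomy ξ ξ' with h1 | h1 | h1
      · exact ⟨Sum.inl j, Sum.inr j, hy0 j, hy1 j,
          ((cmp_eq_lt_iff _ _).2 (hy01 j)).trans ((cmp_eq_lt_iff _ _).2 h1).symm⟩
      · exact ⟨Sum.inl j, Sum.inl j, hy0 j, hy0 j,
          (cmp_self_eq_eq _).trans ((cmp_eq_eq_iff _ _).2 h1).symm⟩
      · exact ⟨Sum.inr j, Sum.inl j, hy1 j, hy0 j,
          ((cmp_eq_gt_iff _ _).2 (hy01 j)).trans ((cmp_eq_gt_iff _ _).2 h1).symm⟩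
    have e1 := hcol j α (hA30 _ hα) α' (hA30 _ hα') ξ (hK21 _ hξ) ξ' (hK21 _ hξ') _ (hK21 _ hu)
      _ (hK21 _ hv) huv.symm h
    have e2 := hrow (ρ j) α (hA32 _ hα) α' (hA32 _ hα') β (hA32 _ hβ) β' (hA32 _ hβ') hc u v e1
    exact hcol j β (hA30 _ hβ) β' (hA30 _ hβ') _ (hK21 _ hu) _ (hK21 _ hv) η (hK21 _ hη) η'
      (hK21 _ hη') (huv.trans hc') e2
  · intro j j' hne hρj α hα α' hα' β hβ β' hβ' hc ξ hξ η hη ξ' hξ' η' hη' h
    have e1 := h4' j j' hne α (hA31 _ hα) α' (hρj ▸ hA31 _ hα') ξ hξ (y0 j) (hy0 j) ξ' hξ'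
      (y0 j') (hy0 j') h
    have e2 := hrow (ρ j) α (hA32 _ hα) α' (hA32 _ hα') β (hA32 _ hβ) β' (hA32 _ hβ') hc
      (Sum.inl j) (Sum.inl j') e1
    exact h4' j j' hne β (hA31 _ hβ) β' (hρj ▸ hA31 _ hβ') (y0 j) (hy0 j) η hη (y0 j')
      (hy0 j') η' hη' e2
  · intro j j' hρj α hα β hβ α' hα' β' hβ' ξ hξ η hη ξ' hξ' η' hη' h
    have hne : j ≠ j' := fun e => hρj (by rw [e])
    have e1 := h4' j j' hne α (hA31 _ hα) α' (hA31 _ hα') ξ hξ (y0 j) (hy0 j) ξ' hξ'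
      (y0 j') (hy0 j') h
    have e2 : G (β, y0 j) (β', y0 j') := by
      rcases lt_or_gt_of_ne hρj with hlt | hgt
      · exact h8 j j' hlt α hα β hβ α' hα' β' hβ' e1
      · exact hG.symm _ _ (h8 j' j hgt α' hα' β' hβ' α hα β hβ (hG.symm _ _ e1))
    exact h4' j j' hne β (hA31 _ hβ) β' (hA31 _ hβ') (y0 j) (hy0 j) η hη (y0 j')
      (hy0 j') η' hη' e2
  · intro j j' hlt
    exact ((hsa j).trans (hab j)).trans_le (hbs j j' hlt)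
  · intro i
    exact ((h2s i).trans (Order.le_succ _)).trans (hA3c i).ge
  · intro j
    exact (hsa j).le.trans (((h2a j).trans (Order.le_succ _)).trans (hK2c j).ge)

end Pool.Agent.Y537.SQ
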