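import Pool.Agent.H650R2.SqMain
import Pool.Agent.Y537.SQ.Canon

set_option autoImplicit false

/-!
# The characterization of all `λ`, `β` with `λ² → (λ², β)²`
-/

namespace Pool.Agent.Y537.SQ

open Cardinal Ordinal Set Pool.Agent.H650R2.Sq

universe u

/-- The relation passes from the cofinality to a singular strong limit cardinal. -/
theorem rectN_of_cof {n : ℕ} {lam : Cardinal.{u}} (hinf : ℵ₀ ≤ lam) (hsing : lam.ord.cof < lam)
    (hlim : ∀ c < lam, (2 : Cardinal.{u}) ^ c < lam) (hR : RectN n lam.ord.cof) :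
    RectN n lam := by
  intro W hW G hG
  obtain ⟨e⟩ : Nonempty (lam.ord.ToType ≃ W) := Cardinal.eq.1 (by rw [hW]; simp)
  have hG' : NF n (fun p q : lam.ord.ToType × lam.ord.ToType =>
      G (e p.1, e p.2) (e q.1, e q.2)) :=
    ⟨fun p q hpq => hG.symm _ _ hpq, fun φ hφ => hG.clique (fun i => (e (φ i).1, e (φ i).2)) hφ⟩
  have hc : #(lam.ord.ToType) = lam := by simp
  obtain ⟨ρ, A, K, s, h1, h2, h3, h4, h5, h6, h7, h8, h9, h10⟩ :=
    canonS hinf hsing hlim hc (G := fun p q : lam.ord.ToType × lam.ord.ToType =>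
      G (e p.1, e p.2) (e q.1, e q.2)) ⟨hG'.symm⟩
  obtain ⟨A', hA', Hs, hHs, hind⟩ :=
    assembleN hinf hR hc hG' ρ h1 A K h2 h3 h4 h5 h6 s h7 h8 h9 h10
  refine ⟨e '' A', ?_, fun w => e '' (Hs (e.symm w)), ?_, ?_⟩
  · rw [mk_image_eq e.injective, hA']
  · rintro _ ⟨a, ha, rfl⟩
    show #(e '' (Hs (e.symm (e a)))) = lam
    rw [e.symm_apply_apply, mk_image_eq e.injective, hHs a ha]
  · rintro _ ⟨a, ha, rfl⟩ b hb _ ⟨a', ha', rfl⟩ b' hb' hGab
    change b ∈ e '' (Hs (e.symm (e a))) at hb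
    change b' ∈ e '' (Hs (e.symm (e a'))) at hb'
    rw [e.symm_apply_apply] at hb hb'
    obtain ⟨b, hb, rfl⟩ := hb
    obtain ⟨b', hb', rfl⟩ := hb'
    exact hind a ha b hb a' ha' b' hb' hGab

/-- ZFC: `μ → (μ)²₂` implies the relation for the regular cardinal `μ`. -/
theorem rectN_of_arrow (n : ℕ) {μ : Cardinal.{u}} (hμ : μ.IsRegular)
    (h : Arrow μ.ord μ.ord μ.ord) : RectN n μ := by
  obtain ⟨hI1, hI2, hI3, hI4⟩ := reg_facts hμ
  have hIc : #μ.ord.ToType = μ := mk_ord_toType _
  refine rectN_of_rectON hμ (rectON_of_pair n hI2 hI3 hI1 hI4 fun f => ?_)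
  have hunb : ∀ H : Set μ.ord.ToType, typeLT H = μ.ord → Unb H := by
    intro H hH
    refine unb_of_card hI2 hI1 ?_
    have h1 := congrArg Ordinal.card hH
    rw [card_type, card_ord] at h1
    exact h1.trans hIc.symm
  rcases h f with ⟨H, hH, hf⟩ | ⟨H, hH, hf⟩
  · exact ⟨H, hunb H hH, false, hf⟩
  · exact ⟨H, hunb H hH, true, hf⟩

/-- ZFC: the positive relation for regular cardinals and singular strong limit cardinals. -/
theorem positive (n : ℕ) {lam : Cardinal.{u}} (hlam : ℵ₀ ≤ lam)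
    (hl : lam.IsRegular ∨ ∀ c < lam, (2 : Cardinal.{u}) ^ c < lam)
    (h : Arrow lam.ord.cof.ord lam.ord.cof.ord lam.ord.cof.ord) :
    Arrow (lam.ord * lam.ord) (lam.ord * lam.ord) n := by
  have hreg : lam.ord.cof.IsRegular := isRegular_cof (isSuccLimit_ord hlam)
  have hR := rectN_of_arrow n hreg h
  rcases (cof_ord_le lam).lt_or_eq with hsing | heq
  · rcases hl with hl | hl
    · rw [hl.cof_ord] at hsing
      exact absurd hsing (lt_irrefl _)
    · exact arrow_of_rectN (rectN_of_cof hlam hsing hl hR)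
  · rw [heq] at hR
    exact arrow_of_rectN hR

/-- Smaller second goals are easier. -/
theorem Arrow.mono_right {κ α β β' : Ordinal.{u}} (h : Arrow κ α β) (hβ : β' ≤ β) :
    Arrow κ α β' := by
  intro f
  rcases h f with h1 | ⟨H, hH, hf⟩
  · exact Or.inl h1
  · right
    have h2 : typeLT β'.ToType ≤ typeLT H := by rw [type_toType, hH]; exact hβ
    obtain ⟨e⟩ := type_le_iff'.1 h2
    have he : StrictMono fun x => ((e x).1 : κ.ToType) := fun x y hxy => e.map_rel_iff.2 hxy
    refine ⟨Set.range fun x => ((e x).1 : κ.ToType), ?_, ?_⟩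
    · rw [type_range he, type_toType]
    · rintro _ ⟨x, rfl⟩ _ ⟨y, rfl⟩ hxy
      exact hf _ (e x).2 _ (e y).2 hxy

/-- `λ² → (λ², 2)²` holds. -/
theorem arrow_two (κ : Ordinal.{u}) : Arrow κ κ 2 := by
  classical
  intro f
  by_cases h : ∃ x y : κ.ToType, x < y ∧ f x y = true
  · right
    obtain ⟨x, y, hxy, hf⟩ := h
    have h1 : StrictMono ![x, y] := by
      intro i j hij
      fin_cases i <;> fin_cases j <;> simp_all
    have h2 := type_fin ![x, y] h1
    refine ⟨Set.range ![x, y], by simpa using h2, ?_⟩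
    rintro _ ⟨i, rfl⟩ _ ⟨j, rfl⟩ hij
    have hij' := h1.lt_iff_lt.1 hij
    fin_cases i <;> fin_cases j <;> simp_all
  · left
    push Not at h
    refine ⟨Set.univ, ?_, fun x _ y _ hxy => by simpa using h x y hxy⟩
    have h1 : StrictMono (fun x : κ.ToType => x) := strictMono_id
    have h2 := type_range h1
    rw [Set.range_id', type_toType] at h2
    exact h2

/-- ZFC: for infinite `β` the relation fails. -/
theorem not_arrow_omega {lam : Cardinal.{u}} (hlam : ℵ₀ ≤ lam) {β : Ordinal.{u}} (hβ : ω ≤ β) :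
    ¬ Arrow (lam.ord * lam.ord) (lam.ord * lam.ord) β := by
  classical
  intro h0
  have h := Arrow.mono_right h0 hβ
  let W : Type u := lam.ord.ToType
  have hWt : typeLT W = lam.ord := type_toType _
  have hWc : #W = lam := by simp [W]
  have hc : #((lam.ord * lam.ord).ToType) = lam := by
    rw [mk_toType, card_mul, card_ord]
    exact mul_eq_self hlam
  obtain ⟨e⟩ : Nonempty ((lam.ord * lam.ord).ToType ≃ W) := Cardinal.eq.1 (hc.trans hWc.symm)
  have hlt : lam.ord < lam.ord * lam.ord := by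
    have h1 : (1 : Ordinal.{u}) < lam.ord := by
      have := isSuccLimit_ord hlam
      have h2 : ω ≤ lam.ord := by
        have := ord_le_ord.2 hlam
        rwa [ord_aleph0] at this
      exact one_lt_omega0.trans_le h2
    have h3 : (0 : Ordinal.{u}) < lam.ord := zero_lt_one.trans h1
    have := mul_lt_mul_of_pos_left h1 h3
    rwa [mul_one] at this
  rcases h (fun x y => decide (e y < e x)) with ⟨H, hH, hf⟩ | ⟨H, hH, hf⟩
  · -- the orders agree on `H`
    have h1 : StrictMono fun x : H => e x.1 := by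
      intro x y hxy
      have h2 := hf x.1 x.2 y.1 y.2 hxy
      rw [decide_eq_false_iff_not, not_lt] at h2
      exact lt_of_le_of_ne h2 fun h3 => (ne_of_lt hxy) (Subtype.ext (e.injective h3))
    have h2 := type_range h1
    have h3 : typeLT (Set.range fun x : H => e x.1) ≤ typeLT W := by
      rw [type_le_iff']
      exact ⟨(OrderEmbedding.subtype _).ltEmbedding⟩
    rw [h2, hH, hWt] at h3
    exact absurd hlt (not_lt.2 h3)
  · -- an infinite decreasing sequence
    have h1 : typeLT (ULift.{u} ℕ) = ω := by simp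
    obtain ⟨k⟩ := type_eq.1 (h1.trans hH.symm)
    let g : ℕ → W := fun i => e (k ⟨i⟩).1
    have hg : ∀ i, g (i + 1) < g i := by
      intro i
      have h2 : (k ⟨i⟩).1 < (k ⟨i + 1⟩).1 :=
        k.map_rel_iff.2 (show ULift.up.{u} i < ULift.up.{u} (i + 1) from Nat.lt_succ_self i)
      have h3 := hf _ (k ⟨i⟩).2 _ (k ⟨i + 1⟩).2 h2
      exact of_decide_eq_true h3
    exact (RelEmbedding.natGT g hg).not_wellFounded (wellFounded_lt (α := W))

end Pool.Agent.Y537.SQ
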